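import Pool.Agent.Q83.FF.Def

/-!
# Statements of the lemmas of project FF

Each `S_name` is a proposition; the proof to be formalised is in its docstring.
Summation over `i < j` is written `∑ i, ∑ j ∈ Ioi i`.
-/

namespace Pool.Agent.Q83.FF

open Polynomial Finset Filter Topology

/-! ## Real-rootedness -/

/-- Laguerre's theorem for the open upper half plane (one polar derivative).

Proof. Write `g1 = (n+1) g + (b - X) g'`. Degree: the coefficient of `X^(n+1)` in `g1` is
`(n+1) g_(n+1) - (n+1) g_(n+1) = 0` and higher coefficients vanish, so `natDegree g1 ≤ n`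
(look at coefficients: `coeff (C b - X) * g'` etc.). Let `z` with `z.im ≤ 0`; then `g z ≠ 0`. Let
`ζ_1, …, ζ_m` be the roots of `g` with multiplicity, `m = natDegree g ≤ n+1`; `g` splits over `ℂ`
and `g'(z)/g(z) = ∑ 1/(z - ζ_i)` (Mathlib: `Polynomial.eval_derivative_div_eval_of_ne_zero_of_splits`
or similar, or by induction on the product). Hence
`g1(z)/g(z) = (n+1) + (b - z) ∑ w_i`, `w_i = 1/(z - ζ_i)`.
Put `y = -z.im ≥ 0` and `D(w) = y * |w|^2 - w.im`, a convex function of `w ∈ ℂ`.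
For `w = 1/(z - ζ)`, `ζ.im > 0`: `w.im = (ζ.im - z.im)/|z-ζ|^2 = (ζ.im + y)/|z - ζ|^2` and
`|w|^2 = 1/|z-ζ|^2`, so `D(w) = - ζ.im/|z-ζ|^2 < 0`. Also `D(0) = 0`.
If `g1(z) = 0` then `(b - z) ∑ w_i = -(n+1)`; so `b ≠ z`, and with `W = (∑ w_i)/(n+1)` (the average of
`m` numbers `w_i` and `n+1-m` zeros) one has `W = 1/(z - b)`. On one hand, by the same computation
with `b` in place of `ζ`, `D(W) = - b.im/|z-b|^2 ≥ 0`. On the other hand, by convexity
(for the square: `|∑ w_i|^2 ≤ m ∑ |w_i|^2`), `D(W) ≤ (1/(n+1)) ∑ D(w_i) < 0` when `m ≥ 1`;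
when `m = 0` we have `W = 0 ≠ 1/(z-b)`. Contradiction. So `g1(z) ≠ 0` whenever `z.im ≤ 0`; in
particular `g1 ≠ 0` and all roots of `g1` have positive imaginary parts. -/
def S_polar : Prop :=
  ∀ (n : ℕ) (g : ℂ[X]) (b : ℂ), g ≠ 0 → g.natDegree ≤ n + 1 → (∀ z, g.IsRoot z → 0 < z.im) →
    b.im ≤ 0 →
    (C ((n : ℂ) + 1) * g + (C b - X) * derivative g ≠ 0 ∧
     (C ((n : ℂ) + 1) * g + (C b - X) * derivative g).natDegree ≤ n ∧
     ∀ z, (C ((n : ℂ) + 1) * g + (C b - X) * derivative g).IsRoot z → 0 < z.im)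

/-- The theorem of Grace, Walsh and Szego for a half plane.

Proof from `S_polar`. Let `A(n, g, b)` be the sum. Induction on `n`.
`n = 0`: `g` is a nonzero constant, the sum is `g.coeff 0 ≠ 0`.
Step: for `b : Fin (n+1) → ℂ` write `Q = ∏ (X - b j) = (X - b 0) * R` with
`R = ∏ (X - b (succ j))`. With `e_k(b) = (-1)^k Q.coeff (n+1-k)` and `e_k = (-1)^k R.coeff (n-k)`
(elementary symmetric functions of the tail) we have `e_k(b) = e_k + b_0 e_(k-1)`. Let
`g1 = (n+1) g + (b_0 - X) g'`; its coefficient of `X^k` is `(n+1-k) g_k + b_0 (k+1) g_(k+1)`.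
Because `(n+1-k)/C(n,k) = (n+1)/C(n+1,k)` and `(k+1)/C(n,k) = (n+1)/C(n+1,k+1)` one gets
`A(n, g1, tail b) = (n+1) A(n+1, g, b)`. By `S_polar` the polynomial `g1` satisfies the hypotheses for
`n`, hence `A(n, g1, tail b) ≠ 0`. -/
def S_gws : Prop :=
  ∀ (n : ℕ) (g : ℂ[X]) (b : Fin n → ℂ), g ≠ 0 → g.natDegree ≤ n →
    (∀ z, g.IsRoot z → 0 < z.im) → (∀ j, (b j).im ≤ 0) →
    ∑ k ∈ range (n + 1),
      (-1 : ℂ) ^ k * g.coeff k * (∏ j, (X - C (b j))).coeff (n - k) / (n.choose k : ℂ) ≠ 0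

/-- The convolution as a differential operator.

Proof. Compare coefficients of `X^(d-i)` for `i ≤ d`: on the right,
`(derivative^[k] p).coeff (d-i) = (d-i+k)!/(d-i)! * p.coeff (d-i+k)` (Mathlib
`Polynomial.coeff_iterate_derivative`), nonzero only for `k ≤ i` since `natDegree p ≤ d`;
with `j = i - k`, `d - i + k = d - j`. On the left the signs cancel: `(-1)^i (-1)^j (-1)^k = 1` for
`j + k = i`. Coefficients of `X^m`, `m > d`, vanish on both sides. -/
def S_convop : Prop :=
  ∀ (d : ℕ) (p q : ℝ[X]), p.natDegree ≤ d →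
    conv d p q = ∑ k ∈ range (d + 1),
      C ((Nat.factorial (d - k) : ℝ) / (Nat.factorial d : ℝ) * q.coeff (d - k))
        * derivative^[k] p

/-- Elementary facts on the convolution. They follow directly from the definition
(coefficient of `X^(d-i)`), or from `S_convop`. -/
def S_convbasic : Prop :=
  (∀ (d : ℕ) (p q : ℝ[X]), conv d p q = conv d q p) ∧
  (∀ (d : ℕ) (p q : ℝ[X]), (conv d p q).natDegree ≤ d) ∧
  (∀ (d : ℕ) (p q : ℝ[X]), p.Monic → p.natDegree = d → q.Monic → q.natDegree = d →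
    (conv d p q).Monic ∧ (conv d p q).natDegree = d) ∧
  (∀ (d : ℕ) (p q : ℝ[X]) (e : ℝ), q.Monic → q.natDegree = d →
    conv d (p + C e) q = conv d p q + C e) ∧
  (∀ (d : ℕ) (p : ℝ[X]), p.natDegree ≤ d → conv d p (X ^ d) = p)

/-- Facts on root vectors. (1) A sorted root vector is determined by the polynomial
(the multiset of values is `(P c).roots`; two monotone functions on `Fin d` with the same multiset of
values are equal). (2) Every vector can be sorted (`Tuple.sort`). (3) `P a` is monic of degree `d`.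
(4) A monic real polynomial of degree `d` all of whose complex roots are real is `P c` with `c`
monotone. (5) `rt` has the property that defines it. (6) `P` separates values: if `P a = P b` and `a`
is injective then `b` is injective. -/
def S_uniq : Prop :=
  (∀ (d : ℕ) (c c' : Fin d → ℝ), Monotone c → Monotone c' → P c = P c' → c = c') ∧
  (∀ (d : ℕ) (a : Fin d → ℝ), ∃ s : Equiv.Perm (Fin d), Monotone (a ∘ s) ∧ P (a ∘ s) = P a) ∧
  (∀ (d : ℕ) (a : Fin d → ℝ), (P a).Monic ∧ (P a).natDegree = d) ∧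
  (∀ (d : ℕ) (p : ℝ[X]), p.Monic → p.natDegree = d →
    (∀ z : ℂ, (p.map (algebraMap ℝ ℂ)).eval z = 0 → z.im = 0) →
    ∃ c : Fin d → ℝ, Monotone c ∧ P c = p) ∧
  (∀ (d : ℕ) (p : ℝ[X]) (c : Fin d → ℝ), Monotone c → P c = p →
    rt d p = c ∧ Monotone (rt d p) ∧ P (rt d p) = p) ∧
  (∀ (d : ℕ) (a b : Fin d → ℝ), P a = P b → Function.Injective a → Function.Injective b)

/-- The convolution preserves real-rootedness (Walsh).

Proof. Let `z : ℂ` with `z.im > 0`. Let `g(y) = ∏ (z - a i - y) ∈ ℂ[y]`, that is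
`g = ∏ (C (z - a i) - X)`; it has degree `d`, its roots `z - a i` lie in the open upper half plane and
`g.coeff k = (-1)^k p^(k)(z)/k!` for `p = P a` (Taylor expansion of `p(z - y)`; e.g.
`g = ((P a).map _).comp (C z - X)`). Apply `S_gws` with `n = d` and `b j` real: the number
`∑_k (-1)^k g_k (P b).coeff (d-k) / C(d,k) = ∑_k p^(k)(z) (d-k)!/d! (P b).coeff (d-k)`
is not zero. By `S_convop` this number is the value of `conv d (P a) (P b)` at `z`. For `z.im < 0` use
complex conjugation (the polynomial is real). By `S_convbasic` the convolution is monic of degree `d`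
and part (4) of `S_uniq` gives the sorted root vector. -/
def S_rr : Prop :=
  ∀ (d : ℕ) (a b : Fin d → ℝ), ∃ c : Fin d → ℝ, Monotone c ∧ P c = conv d (P a) (P b)

/-! ## Continuity of the roots, polynomial dependence -/

/-- Continuity of sorted real roots along an arbitrary filter.

Proof. The coefficients of `P (c t)` are bounded eventually, hence so are the roots: a root `x` of a
monic polynomial of degree `d` satisfies `|x| ≤ 1 + ∑_(j<d) |coeff j|`. So eventually `c t` lies in a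
closed ball `K` of `Fin d → ℝ`, which is compact. Suppose `c` does not tend to `c0` along `l`; use
ultrafilters (`tendsto_iff_ultrafilter`): let `u ≤ l` be an ultrafilter; `u.map c` is an ultrafilter
containing `K`, so it converges to some `c1`. The set of monotone vectors is closed, so `c1` is
monotone; the coefficients of `P` are continuous functions of the root vector, so
`(P c1).coeff j = (P c0).coeff j` for all `j` and `P c1 = P c0`, whence `c1 = c0` by `S_uniq`. -/
def S_cont : Prop :=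
  ∀ (T : Type) (l : Filter T) (d : ℕ) (c : T → Fin d → ℝ) (c0 : Fin d → ℝ),
    (∀ᶠ t in l, Monotone (c t)) → Monotone c0 →
    (∀ j, Tendsto (fun t => (P (c t)).coeff j) l (𝓝 ((P c0).coeff j))) → Tendsto c l (𝓝 c0)

/-- Symmetric polynomials of the roots of a family of polynomials whose coefficients depend
polynomially on `t` depend polynomially on `t`.

Proof. By the fundamental theorem on symmetric polynomials (Mathlib `MvPolynomial.esymmAlgEquiv`,
`MvPolynomial.esymmAlgHom_surjective` or similar) `φ` is a polynomial in the elementary symmetric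
polynomials `e_1, …, e_d` (also possible: `φ ∈ Algebra.adjoin`), and
`e_k(a t) = (-1)^k (P (a t)).coeff (d-k)` (Vieta, `Multiset.prod_X_sub_C_coeff` or
`Finset.prod_X_sub_C_coeff`), a polynomial in `t`. -/
def S_sym : Prop :=
  ∀ (d : ℕ) (phi : MvPolynomial (Fin d) ℝ), phi.IsSymmetric →
    ∀ (a : ℝ → Fin d → ℝ) (E : ℕ → ℝ[X]), (∀ t j, (P (a t)).coeff j = (E j).eval t) →
    ∃ f : ℝ[X], ∀ t, f.eval t = MvPolynomial.eval (a t) phi

/-- A polynomial of growth `(1+|t|)^M` has degree at most `M`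
(e.g. Mathlib `Polynomial.isBigO_of_degree_le` / `Polynomial.div_tendsto_zero...`,
`Polynomial.isEquivalent_atTop_lead`). -/
def S_growth : Prop :=
  ∀ (f : ℝ[X]) (M : ℕ) (K : ℝ), (∀ t : ℝ, |f.eval t| ≤ K * (1 + |t|) ^ M) → f.natDegree ≤ M

/-- A small square is not covered by finitely many lines.

Proof. First choose `x` with `|x - x0| < e` outside the finitely many values for which some line of
the set is vertical and passes through `x` (`z.2.1 = 0`, `x = z.2.2/z.1`). Then for every `z` with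
`z.2.1 ≠ 0` there is one bad value of `y`; avoid these finitely many values. -/
def S_lines : Prop :=
  ∀ (T : Finset (ℝ × ℝ × ℝ)), (∀ z ∈ T, z.1 ≠ 0 ∨ z.2.1 ≠ 0) → ∀ (x0 y0 e : ℝ), 0 < e →
    ∃ x y : ℝ, |x - x0| < e ∧ |y - y0| < e ∧ ∀ z ∈ T, z.1 * x + z.2.1 * y ≠ z.2.2

/-- Counting zeros of a product of continuous functions that is a polynomial of small degree.

Proof. `f ≠ 0` since `f.eval 0 > 0`. By the intermediate value theorem `phi i0` has a zero in
`(0,1/2)` and a zero in `(1/2,1)`; for `i ∈ A` the function `phi i` has a zero in `(1,∞)`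
(it is positive at `1`), for `i ∈ B` it has a zero in `(-∞,0)`. By `hs` zeros belonging to different
indices are different; zeros in different intervals are different. This gives at least
`2 + A.card + B.card ≥ 2 + card ι` distinct roots of `f`, more than its degree. -/
def S_abs : Prop :=
  ∀ (ι : Type) [Fintype ι] [DecidableEq ι] (f : ℝ[X]) (phi : ι → ℝ → ℝ),
    (∀ i, Continuous (phi i)) → (∀ t, f.eval t = ∏ i, phi i t) →
    f.natDegree ≤ Fintype.card ι →
    (∀ t i j, phi i t = 0 → phi j t = 0 → i = j) →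
    (∀ i, 0 < phi i 0) → (∀ i, 0 < phi i 1) →
    ∀ i0, phi i0 (1 / 2) < 0 →
    ∀ A B : Finset ι, (∀ i ∈ A, ∃ t, 1 < t ∧ phi i t < 0) → (∀ i ∈ B, ∃ t, t < 0 ∧ phi i t < 0) →
    Fintype.card ι ≤ A.card + B.card → False

/-- Along a line the coefficients of the convolution are polynomials in the parameter
(each coefficient of `P (a + t • a')` is a polynomial in `t`; sums and products). -/
def S_poly2 : Prop :=
  ∀ (d : ℕ) (a a' b b' : Fin d → ℝ), ∃ E : ℕ → ℝ[X], ∀ (t : ℝ) (j : ℕ),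
    (conv d (P (a + t • a')) (P (b + t • b'))).coeff j = (E j).eval t

/-- Generic pairs: all sums of equally many roots of the convolution are different.

Proof. Let `a1 i = 2^i` (as a real), `b1 = 0`; by `S_convbasic` the convolution of `P a1` and
`P b1 = X^d` is `P a1`. Consider the line `w(t) = (a,b) + t ((a1,b1) - (a,b))`, and for every `t` the
sorted root vector `c(t)` (`S_rr`). The polynomial
`phi = ∏ over pairs (S,T) of subsets with S.card = T.card, S ≠ T of (∑_(i∈S) X_i - ∑_(i∈T) X_i)`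
in `MvPolynomial (Fin d) ℝ` is symmetric. By `S_poly2` and `S_sym` there is `f : ℝ[X]` with
`f.eval t = phi (c(t))`. At `t = 1`, `c(1) = a1` (by `S_uniq`, as `a1` is monotone), and sums of powers of
two over different sets are different, so `f.eval 1 ≠ 0` and `f` has finitely many zeros. Hence there
are arbitrarily small `t > 0` with `f.eval t ≠ 0`; choose `t` so small that all coordinates move by
less than `e`. -/
def S_dens : Prop :=
  ∀ (d : ℕ) (a b : Fin d → ℝ) (e : ℝ), 0 < e → ∃ a' b' : Fin d → ℝ,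
    (∀ i, |a' i - a i| < e) ∧ (∀ i, |b' i - b i| < e) ∧
    ∀ c : Fin d → ℝ, Monotone c → P c = conv d (P a') (P b') →
      ∀ S T : Finset (Fin d), S.card = T.card → ∑ i ∈ S, c i = ∑ i ∈ T, c i → S = T

/-- The first two power sums of the roots of the convolution.

Proof. Compare the coefficients of `X^(d-1)` and `X^(d-2)`: with `e_1, e_2` the elementary symmetric
functions, `e_1(c) = e_1(a) + e_1(b)` and (for `d ≥ 2`)
`e_2(c) = e_2(a) + e_2(b) + ((d-1)/d) e_1(a) e_1(b)`; and `∑ c_i^2 = e_1^2 - 2 e_2`.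
The cases `d = 0, 1` are direct. -/
def S_sums : Prop :=
  ∀ (d : ℕ) (a b c : Fin d → ℝ), P c = conv d (P a) (P b) →
    ∑ i, c i = ∑ i, a i + ∑ i, b i ∧
    ∑ i, c i ^ 2 = ∑ i, a i ^ 2 + ∑ i, b i ^ 2 + 2 / (d : ℝ) * ((∑ i, a i) * ∑ i, b i)

/-- Coefficients under scaling of the roots, and homogeneity of the convolution.

Proof. `(P (t • a)).coeff (d-k) = (-1)^k e_k(t • a) = t^k (P a).coeff (d-k)` for `k ≤ d`
(or: for `t ≠ 0`, `P (t•a)` is `t^d P a (x/t)`; for `t = 0` it is `X^d`). In the convolution the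
coefficient of `X^(d-i)` only involves products with `j + k = i`, so it is multiplied by `t^i`. -/
def S_smul : Prop :=
  (∀ (d : ℕ) (a : Fin d → ℝ) (t : ℝ) (k : ℕ), k ≤ d →
    (P (t • a)).coeff (d - k) = t ^ k * (P a).coeff (d - k)) ∧
  (∀ (d : ℕ) (a b c : Fin d → ℝ) (t : ℝ), P c = conv d (P a) (P b) →
    P (t • c) = conv d (P (t • a)) (P (t • b)))

/-! ## Subadditivity of the sums of the largest roots, and the Lipschitz property -/

/-- The sorted root vector of the convolution. -/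
noncomputable def Om {d : ℕ} (a b : Fin d → ℝ) : Fin d → ℝ := rt d (conv d (P a) (P b))

/-- Basic property of `Om`: from `S_rr` and `S_uniq`. -/
def S_om1 : Prop :=
  ∀ (d : ℕ) (a b : Fin d → ℝ), Monotone (Om a b) ∧ P (Om a b) = conv d (P a) (P b) ∧
    ∀ c : Fin d → ℝ, Monotone c → P c = conv d (P a) (P b) → c = Om a b

/-- Continuity of `Om`. From `S_om1` and `S_cont`: the coefficients of the convolution are continuous
functions of `(a,b)` (finite sums and products). -/
def S_om2 : Prop :=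
  ∀ d : ℕ, Continuous (fun w : (Fin d → ℝ) × (Fin d → ℝ) => Om w.1 w.2)

/-- Homogeneity, reflection and growth of `Om`.

Proof. `P (t • c) = conv (P (t • a)) (P (t • b))` for `c = Om a b` (`S_smul`), and `t • c` is monotone
for `t ≥ 0`; for `t = -1` the vector `i ↦ - c (rev i)` is monotone and is a permutation of `(-1) • c`,
so it has the same `P`. Uniqueness: `S_om1`. Growth: by `S_sums`
`∑ c_i^2 = ∑ a^2 + ∑ b^2 + (2/d) ∑a ∑b ≤ 2 ∑ a^2 + 2 ∑ b^2` (Cauchy-Schwarz: `|∑ a| ≤ √d |a|_2`, so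
`(2/d) ∑a ∑b ≤ 2 |a|_2 |b|_2 ≤ |a|_2^2 + |b|_2^2`). -/
def S_om3 : Prop :=
  (∀ (d : ℕ) (a b : Fin d → ℝ) (t : ℝ), 0 ≤ t → Om (t • a) (t • b) = t • Om a b) ∧
  (∀ (d : ℕ) (a b : Fin d → ℝ) (i : Fin d), Om (-a) (-b) i = - Om a b (Fin.rev i)) ∧
  (∀ (d : ℕ) (a b : Fin d → ℝ), ∑ i, Om a b i ^ 2 ≤ 2 * ∑ i, a i ^ 2 + 2 * ∑ i, b i ^ 2)

/-- Along a line the product over all `n`-subsets `S` of `ℓ(t) - ∑_(i∈S) Om(t) i`, `ℓ` affine, is a
polynomial in `t` of degree at most the number of subsets.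

Proof. Write `g(t) = Om (a + t • a') (b + t • b')`. For `n = 0` the only subset is empty and the product
is `m1 + t * m2`, degree `≤ 1`. Let `n ≥ 1`. Put `u(t) i = g(t) i - (m1 + t * m2)/n`. Then
`ℓ(t) - ∑_(i∈S) g(t) i = - ∑_(i∈S) u(t) i`. The polynomial `P (u t)` is
`(P (g t)).comp (X + C ((m1 + t m2)/n))`, its coefficients are polynomials in `t` (by `S_om1`, `S_poly2`
those of `P (g t)` are). The polynomial `∏_S (-(∑_(i∈S) X_i)) ∈ MvPolynomial (Fin d) ℝ` is symmetric
(a permutation of the variables permutes the `n`-subsets), so by `S_sym` there is `f`. Growth: by `S_om3`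
each factor is `≤ K (1+|t|)` in absolute value, so `|f.eval t| ≤ K' (1+|t|)^(C(d,n))` and
`S_growth` bounds the degree. -/
def S_prodpoly : Prop :=
  ∀ (d n : ℕ) (a a' b b' : Fin d → ℝ) (m1 m2 : ℝ), ∃ f : ℝ[X], f.natDegree ≤ d.choose n ∧
    ∀ t : ℝ, f.eval t = ∏ S ∈ powersetCard n (univ : Finset (Fin d)),
      (m1 + t * m2 - ∑ i ∈ S, Om (a + t • a') (b + t • b') i)

/-- If all sums of `n` roots are different at `t = 0` then coincidences occur only at finitely many
parameters on the line.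

Proof. `∏ over pairs (S,T) of n-subsets, S ≠ T, of (∑_(i∈S) X_i - ∑_(i∈T) X_i)` is a symmetric
polynomial, so by `S_om1`, `S_poly2`, `S_sym` its value at `Om (a + t • a') (b + t • b')` is a polynomial
in `t`, nonzero at `t = 0`; it has finitely many zeros. -/
def S_coinc : Prop :=
  ∀ (d n : ℕ) (a a' b b' : Fin d → ℝ),
    (∀ S T : Finset (Fin d), S.card = n → T.card = n → ∑ i ∈ S, Om a b i = ∑ i ∈ T, Om a b i →
      S = T) →
    {t : ℝ | ∃ S T : Finset (Fin d), S.card = n ∧ T.card = n ∧ S ≠ T ∧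
      ∑ i ∈ S, Om (a + t • a') (b + t • b') i = ∑ i ∈ T, Om (a + t • a') (b + t • b') i}.Finite

/-- Subadditivity of the sum of the largest roots, generic case
(the sum is over the indices `i` with `k ≤ i`; `n = d - k` is their number).

Proof. Let `F (a,b) = ∑_(i ≥ k) Om a b i`, `w = (a,b)`, `w' = (a',b')`. If `k ≥ d` all sums are `0`. Let
`k < d`, `n = d - k ≥ 1`, `ι = {S : Finset (Fin d) // S.card = n}` (or any type of the `n`-subsets),
`top ∈ ι` the set of indices `≥ k`. For `S ∈ ι`: `∑_(i∈S) Om i ≤ F` (monotone vector; for instance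
remove the common elements: the elements of `top` outside `S` are as many as those of `S` outside
`top`, and all of the former are `≥ k`, all of the latter `< k`).
Suppose `F (w+w') > F w + F w'`, and let `e = (F (w+w') - F w - F w')/3 > 0`. Put
`g(t) = Om ((1-t) w + t w') = Om (a + t (a'-a)) (b + t (b'-b))`. By `S_coinc` and `hgen` the set `Z` of
the `t` for which two different `n`-subsets have the same sum of entries of `g(t)` is finite. Choose
`m1, m2` with `|m1 - (F w + e)| < e/3`, `|m2 - (F w' + e)| < e/3` such that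
(i) for `t ∈ Z`, `S ∈ ι`: `(1-t) m1 + t m2 ≠ ∑_(i∈S) g(t) i`;
(ii) for `S ∈ ι`: `v_S := m2 - m1 - ∑_(i∈S) Om (w'-w) i ≠ 0`.
These are finitely many lines in the `(m1,m2)` plane, with coefficients `(1-t, t)` and `(-1,1)`:
`S_lines`. Put `phi S t = (1-t) m1 + t m2 - ∑_(i∈S) g(t) i`, continuous by `S_om2`. By `S_prodpoly`
(with `m1 + t (m2 - m1)`) the product over `S ∈ ι` is a polynomial `f` with
`natDegree f ≤ C(d,n) = card ι`. At most one `phi S` vanishes at a given `t`: if `phi S t = phi T t = 0`,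
`S ≠ T`, then `t ∈ Z`, contradiction to (i). Next `phi S 0 ≥ m1 - F w > 0`, `phi S 1 ≥ m2 - F w' > 0` and
`phi top (1/2) = (m1 + m2 - F (w+w'))/2 < 0` because `g(1/2) = Om ((w+w')/2) = Om (w+w')/2` (`S_om3`).
As `t → ∞`: `phi S t / t → v_S`, since for `t > 0` `g(t)/t = Om ((1/t - 1) w + w')` (`S_om3`) tends to
`Om (w'-w)` (`S_om2`). As `t → -∞`: with `t = -u`, `g(t)/u = Om ((1/u + 1) w - w') → Om (w - w')` and
`Om (w - w') i = - Om (w' - w) (rev i)`, so `phi S t/u → m1 - m2 - ∑_(i∈S) Om (w-w') i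
= m1 - m2 + ∑_(i ∈ rev S) Om (w'-w) i = - v_(rev S)`. Let `A = {S : v_S < 0}`,
`B = {S : v_(rev S) > 0}`; for `S ∈ A` there is `t > 1` with `phi S t < 0`, for `S ∈ B` there is `t < 0`
with `phi S t < 0`, and `A.card + B.card = card ι`, as `S ↦ rev S` is a bijection of `ι` and all
`v_S ≠ 0`. `S_abs` gives the contradiction. -/
def S_subgen : Prop :=
  ∀ (d k n : ℕ) (a b a' b' : Fin d → ℝ), n = d - k →
    (∀ S T : Finset (Fin d), S.card = n → T.card = n → ∑ i ∈ S, Om a b i = ∑ i ∈ T, Om a b i →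
      S = T) →
    ∑ i ∈ univ.filter (fun i : Fin d => k ≤ i.val), Om (a + a') (b + b') i ≤
      ∑ i ∈ univ.filter (fun i : Fin d => k ≤ i.val), Om a b i +
      ∑ i ∈ univ.filter (fun i : Fin d => k ≤ i.val), Om a' b' i

/-- Subadditivity of the sum of the largest roots of the convolution
(the sum is over the indices `i` with `k ≤ i`).

Proof. By `S_om1` the vectors `c, c', c''` are `Om a b`, `Om a' b'`, `Om (a+a') (b+b')`. By `S_dens`
there are generic pairs `(a_n,b_n)` converging to `(a,b)`, to which `S_subgen` applies; pass to the limit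
with `S_om2`. -/
def S_sub : Prop :=
  ∀ (d k : ℕ) (a b c a' b' c' c'' : Fin d → ℝ), Monotone c → Monotone c' → Monotone c'' →
    P c = conv d (P a) (P b) → P c' = conv d (P a') (P b') →
    P c'' = conv d (P (a + a')) (P (b + b')) →
    ∑ i ∈ univ.filter (fun i : Fin d => k ≤ i.val), c'' i ≤
      ∑ i ∈ univ.filter (fun i : Fin d => k ≤ i.val), c i +
      ∑ i ∈ univ.filter (fun i : Fin d => k ≤ i.val), c' i

/-- Abel summation.

Proof. `∑ y_i u_i` with `u = z - x`: put `U_k = ∑_(i ≥ k) u_i ≥ 0`, `U_0 = 0`; then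
`∑ y_i u_i = y_0 U_0 + ∑_(k ≥ 1) (y_k - y_(k-1)) U_k ≥ 0`. Induction on `d` is also fine. -/
def S_abel : Prop :=
  ∀ (d : ℕ) (y x z : Fin d → ℝ), Monotone y → ∑ i, x i = ∑ i, z i →
    (∀ k : ℕ, ∑ i ∈ univ.filter (fun i : Fin d => k ≤ i.val), x i ≤
      ∑ i ∈ univ.filter (fun i : Fin d => k ≤ i.val), z i) →
    ∑ i, y i * x i ≤ ∑ i, y i * z i

/-- The root map is Lipschitz with constant one.

Proof. Write `B(w,w') = ⟨a,a'⟩ + ⟨b,b'⟩ + (1/d) (∑a ∑b' + ∑a' ∑b)`, so that `S_sums` says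
`‖Om w‖^2 = B(w,w)` for the sorted root vector `Om w`. Let `c'' = Om (w+w')` (exists by `S_rr`).
By `S_sub` (all `k`), `S_sums` (totals) and `S_abel` with `y = c''`, `x = c''`, `z = c + c'`:
`‖c''‖^2 ≤ ⟨c'', c + c'⟩ ≤ ‖c''‖ ‖c + c'‖`, hence `‖c''‖ ≤ ‖c + c'‖`, i.e.
`B(w,w) + 2 B(w,w') + B(w',w') ≤ ‖c‖^2 + 2⟨c,c'⟩ + ‖c'‖^2`, so `B(w,w') ≤ ⟨c,c'⟩`. Finally
`‖c - c'‖^2 = B(w,w) + B(w',w') - 2⟨c,c'⟩ ≤ B(w-w', w-w')`. -/
def S_lip : Prop :=
  ∀ (d : ℕ) (a b c a' b' c' : Fin d → ℝ), Monotone c → Monotone c' →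
    P c = conv d (P a) (P b) → P c' = conv d (P a') (P b') →
    ∑ i, (c i - c' i) ^ 2 ≤ ∑ i, (a i - a' i) ^ 2 + ∑ i, (b i - b' i) ^ 2 +
      2 / (d : ℝ) * ((∑ i, (a i - a' i)) * ∑ i, (b i - b' i))

/-! ## Simple roots -/

/-- A polynomial with simple real roots stays real-rooted after adding a small constant.

Proof. WLOG (by `S_uniq` part 2) `a` is strictly increasing. Choose points `x_0 < a_0 < x_1 < a_1 < … <
a_(d-1) < x_d`; `P a` has alternating signs and is nonzero at these points. For `|e|` smaller than the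
minimum of `|P a (x_j)|` the polynomial `P a + e` has the same signs at the `x_j`, hence a root in each
`(x_j, x_(j+1))`: `d` distinct roots, so it is the product (monic of degree `d`, `d ≥ 1`). -/
def S_pert : Prop :=
  ∀ (d : ℕ) (a : Fin d → ℝ), 1 ≤ d → Function.Injective a →
    ∃ e0 : ℝ, 0 < e0 ∧ ∀ e : ℝ, |e| ≤ e0 → ∃ a' : Fin d → ℝ, P a' = P a + C e

/-- If `f + e` and `f - e` are real-rooted then `f` has simple roots.

Proof. Suppose `c i = c j = x`, `i ≠ j`; then `f = P c` satisfies `f(x) = f'(x) = 0`. For a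
real-rooted polynomial `u = P c'` and a real `x` with `u(x) ≠ 0`, `u'(x) = 0`:
`u''(x)/u(x) = (u'/u)'(x) + (u'/u)^2(x) = - ∑ 1/(x - c'_i)^2 < 0` (`d ≥ 1`). Apply this to
`u = f + e` and to `u = f - e`: `f''(x)/e < 0` and `f''(x)/(-e) < 0`, a contradiction. -/
def S_two : Prop :=
  ∀ (d : ℕ) (c c' c'' : Fin d → ℝ) (e : ℝ), 0 < e → P c' = P c + C e → P c'' = P c - C e →
    Function.Injective c

/-- The convolution with a polynomial with simple roots has simple roots.

Proof. `d = 0` is trivial. Let `e = e0` from `S_pert`; `P a + e = P a'`, `P a - e = P a''`. By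
`S_convbasic` (part 4) and `S_rr` the polynomials `P c + e = conv (P a') (P b)` and
`P c - e = conv (P a'') (P b)` are of the form `P _`. Use `S_two`. -/
def S_simple : Prop :=
  ∀ (d : ℕ) (a b c : Fin d → ℝ), Function.Injective a → P c = conv d (P a) (P b) →
    Function.Injective c

/-! ## The heat semigroup -/

/-- Algebra of the heat semigroup: additivity, value at `0`, linearity, degree, monic.

Proof. For `natDegree p ≤ d` the iterated derivatives of order `> d` vanish, so the sums may be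
extended to any larger range, and additivity is the binomial theorem
`∑_(i+j=k) x^i/i! y^j/j! = (x+y)^k/k!`. -/
def S_heatalg : Prop :=
  (∀ (d : ℕ) (s t : ℝ) (p : ℝ[X]), p.natDegree ≤ d →
    heat d s (heat d t p) = heat d (s + t) p) ∧
  (∀ (d : ℕ) (p : ℝ[X]), heat d 0 p = p) ∧
  (∀ (d : ℕ) (s : ℝ) (p q : ℝ[X]), heat d s (p + q) = heat d s p + heat d s q) ∧
  (∀ (d : ℕ) (s e : ℝ) (p : ℝ[X]), heat d s (C e * p) = C e * heat d s p) ∧
  (∀ (d : ℕ) (s e : ℝ), heat d s (C e) = C e) ∧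
  (∀ (d : ℕ) (s : ℝ) (p : ℝ[X]), (heat d s p).natDegree ≤ p.natDegree) ∧
  (∀ (d : ℕ) (s : ℝ) (p : ℝ[X]), p.Monic → p.natDegree = d →
    (heat d s p).Monic ∧ (heat d s p).natDegree = d)

/-- The heat semigroup is compatible with the convolution.

Proof. By `S_convop`, `conv d p q` is a differential operator with constant coefficients applied to
`p`, so `conv d (heat d s p) q = heat d s (conv d p q)` (both are operators in `D` applied to `p`;
`natDegree (heat d s p) ≤ natDegree p`). With the symmetry of `conv` and the additivity of the heat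
semigroup (`S_heatalg`) the claim follows. -/
def S_heatconv : Prop :=
  ∀ (d : ℕ) (s t : ℝ) (p q : ℝ[X]), p.natDegree ≤ d → q.natDegree ≤ d →
    conv d (heat d s p) (heat d t q) = heat d (s + t) (conv d p q)

/-- Scaling of the heat semigroup.

Proof. The coefficient of `X^(d-k)` of `P (t • c)` is `t^k` times that of `P c` (`S_smul`), for `k ≤ d`.
The coefficient of `X^(d-i)` of `heat d s p` is
`∑_l (-(s/(2(d-1))))^l/l! (d-i+2l)!/(d-i)! p.coeff (d-i+2l)`; for `p = P (t • a)` and `t^2 s` in place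
of `s` each term is multiplied by `t^(2l) t^(i-2l) = t^i`. -/
def S_heatscale : Prop :=
  ∀ (d : ℕ) (a c : Fin d → ℝ) (s t : ℝ), P c = heat d s (P a) →
    P (t • c) = heat d (t ^ 2 * s) (P (t • a))

/-- Power sums along the heat flow: the coefficient of `X^(d-1)` does not change, the coefficient of
`X^(d-2)` changes by `-(s/(2(d-1))) d (d-1) = - d s/2`; use `∑ c^2 = e_1^2 - 2 e_2`. -/
def S_heatsum : Prop :=
  ∀ (d : ℕ) (a c : Fin d → ℝ) (s : ℝ), 2 ≤ d → P c = heat d s (P a) →
    ∑ i, c i = ∑ i, a i ∧ ∑ i, c i ^ 2 = ∑ i, a i ^ 2 + d * s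

/-- The heat semigroup preserves real-rootedness for `s ≥ 0`.

Proof. Let `e ≥ 0` and `q_e = X^(d-2) (X^2 - e d (d-1))`, a polynomial of the form `P b`. By `S_convop`
`conv d p q_e = p - e p''` for `natDegree p ≤ d`. So by `S_rr` the polynomial `(1 - e D²) p` has the
form `P c` if `p = P a`. Iterating with `e = s/(2(d-1) n)`, the polynomial
`(1 - (s/(2(d-1)n)) D²)^n (P a)` has the form `P c_n` with `c_n` monotone. As `n → ∞` its coefficients
tend to those of `heat d s (P a)` (binomial coefficients: `C(n,k)/n^k → 1/k!`; the operator `D²` is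
nilpotent on polynomials of degree `≤ d`). The root vectors `c_n` are bounded (bounded coefficients, see
`S_cont`), a subsequence converges to some monotone `c` and `P c = heat d s (P a)`. -/
def S_heatrr : Prop :=
  ∀ (d : ℕ) (a : Fin d → ℝ) (s : ℝ), 2 ≤ d → 0 ≤ s →
    ∃ c : Fin d → ℝ, Monotone c ∧ P c = heat d s (P a)

/-- Simple roots stay simple: as `S_simple`, from `S_pert`, `S_two`, `S_heatrr` and
`heat d s (p + C e) = heat d s p + C e` (`S_heatalg`). -/
def S_heatsimple : Prop :=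
  ∀ (d : ℕ) (a c : Fin d → ℝ) (s : ℝ), 2 ≤ d → 0 ≤ s → Function.Injective a →
    P c = heat d s (P a) → Function.Injective c

/-- Derivative of simple roots.

Proof. Write `p_s = P (c s)`, `x(s) = c s i`, `x0 = c s0 i`. From `p_s(x(s)) = 0`:
`- p_(s0)(x(s)) = p_s(x(s)) - p_(s0)(x(s)) = ∑_(j ≤ d) (coeff_j p_s - coeff_j p_(s0)) x(s)^j`.
Divided by `s - s0` this tends to `∑_(j ≤ d) G_j x0^j = G(x0)` along `T \ {s0}`. On the other hand
`p_(s0)(x(s)) = (x(s) - x0) ∏_(j ≠ i) (x(s) - c s0 j)` and the product tends to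
`∏_(j≠i) (x0 - c s0 j) ≠ 0`. Hence `(x(s) - x0)/(s - s0) → - G(x0)/∏_(j≠i) (x0 - c s0 j)`. -/
def S_rootderiv : Prop :=
  ∀ (d : ℕ) (T : Set ℝ) (s0 : ℝ) (c : ℝ → Fin d → ℝ) (G : ℝ[X]), s0 ∈ T →
    ContinuousWithinAt c T s0 → Function.Injective (c s0) → G.natDegree ≤ d →
    (∀ j, j ≤ d → HasDerivWithinAt (fun s => (P (c s)).coeff j) (G.coeff j) T s0) →
    ∀ i, HasDerivWithinAt (fun s => c s i)
      (-(G.eval (c s0 i)) / ∏ j ∈ univ.erase i, (c s0 i - c s0 j)) T s0

/-- The flow of the roots.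

Proof. By `S_heatrr` and `S_uniq`, `fl a s` is the sorted root vector of `heat d s (P a)` for `s ≥ 0`;
it is injective by `S_heatsimple`; `heat d 0 = id`. The coefficients of `heat d s (P a)` are
polynomials in `s`, so `fl a` is continuous on `[0,∞)` by `S_cont`. The derivative of
`s ↦ heat d s p` is `- 1/(2(d-1)) (heat d s p)''` (coefficientwise; use additivity, or differentiate
the sum and note that the last term vanishes since `natDegree p ≤ d`). By `S_rootderiv` with
`G = -(1/(2(d-1))) p_s''`, the derivative of the `i`-th root is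
`p_s''(x_i)/(2(d-1) p_s'(x_i))`, where `p_s'(x_i) = ∏_(j≠i)(x_i - x_j)`, and
`p_s''(x_i) = 2 p_s'(x_i) ∑_(j≠i) 1/(x_i - x_j)`. -/
def S_flow : Prop :=
  ∀ (d : ℕ) (a : Fin d → ℝ), 2 ≤ d → Monotone a → Function.Injective a →
    fl a 0 = a ∧
    (∀ s : ℝ, 0 ≤ s → Monotone (fl a s) ∧ Function.Injective (fl a s) ∧
      P (fl a s) = heat d s (P a)) ∧
    (∀ s : ℝ, 0 ≤ s → ∀ i, HasDerivWithinAt (fun u => fl a u i)
      (J (fl a s) i / ((d : ℝ) - 1)) (Set.Ici 0) s)

/-! ## The Stam inequality and the entropy functional -/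

/-- The finite free Stam inequality.

Proof. For `u ≥ 0` let `A(u) = fl a (x u)`, `B(u) = fl b (y u)`, `G(u) = fl c ((x+y) u)`. By
`S_heatconv` and `S_flow`, `P (G u) = conv d (P (A u)) (P (B u))` and all vectors are monotone, and
`A(0) = a` etc. (`c` is injective by `S_simple`). By `S_lip`
`∑ (G(u) - c)_i^2 ≤ ∑ (A(u) - a)_i^2 + ∑ (B(u) - b)_i^2 + (2/d) (∑ (A(u) - a)_i)(∑ (B(u) - b)_i)`
and the last sums vanish by `S_heatsum`. Divide by `u^2` and let `u → 0+`: by `S_flow`
`(G(u) - c)_i/u → (x+y) J c i/(d-1)`, `(A(u)-a)_i/u → x J a i/(d-1)`, etc. Multiply by `(d-1)^2`. -/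
def S_stam : Prop :=
  ∀ (d : ℕ) (a b c : Fin d → ℝ) (x y : ℝ), 2 ≤ d → Monotone a → Monotone b → Monotone c →
    Function.Injective a → Function.Injective b → P c = conv d (P a) (P b) → 0 ≤ x → 0 ≤ y →
    (x + y) ^ 2 * Phi c ≤ x ^ 2 * Phi a + y ^ 2 * Phi b

/-- Derivative of the logarithm of the discriminant along the flow.

Proof. `log (dis c) = ∑_(i<j) 2 log |c i - c j|`; its derivative is
`2 ∑_(i<j) (c_i' - c_j')/(c_i - c_j) = 2 ∑_i c_i' J c i` and `c_i' = J c i/(d-1)`. -/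
def S_ent : Prop :=
  ∀ (d : ℕ) (a : Fin d → ℝ), 2 ≤ d → Monotone a → Function.Injective a →
    ∀ s : ℝ, 0 ≤ s → HasDerivWithinAt (fun u => Real.log (dis (fl a u)))
      (2 * Phi (fl a s) / ((d : ℝ) - 1)) (Set.Ici 0) s

/-- The three flows are compatible.

Proof. `P (fl c s) = heat d s (P c) = heat d (l s + (1-l) s) (conv ...)
= conv d (heat d (l s) (P (√l • a))) (heat d ((1-l) s) (P (√(1-l) • b)))` by `S_heatconv`, and
`heat d (l s) (P (√l • a)) = P (√l • fl a s)` by `S_heatscale` (`(√l)^2 = l`) and `S_flow`.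
`c` is injective by `S_simple`. -/
def S_rflow : Prop :=
  ∀ (d : ℕ) (a b c : Fin d → ℝ) (l : ℝ), 2 ≤ d → 0 < l → l < 1 →
    Monotone a → Monotone b → Monotone c → Function.Injective a → Function.Injective b →
    P c = conv d (P (Real.sqrt l • a)) (P (Real.sqrt (1 - l) • b)) →
    Function.Injective c ∧ ∀ s : ℝ, 0 ≤ s →
      P (fl c s) = conv d (P (Real.sqrt l • fl a s)) (P (Real.sqrt (1 - l) • fl b s))

/-- Monotonicity of the entropy deficit along the flow.

Proof. The function has derivative within `[0,∞)` equal to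
`(2/(d-1)) (Phi (fl c s) - l Phi (fl a s) - (1-l) Phi (fl b s))` by `S_ent`. By `S_rflow` and
`S_stam` with `x = l`, `y = 1-l` and the vectors `√l • fl a s`, `√(1-l) • fl b s` (monotone, injective),
`Phi (fl c s) ≤ l^2 Phi (√l • fl a s) + (1-l)^2 Phi (√(1-l) • fl b s) = l Phi (fl a s) + (1-l) Phi (fl b s)`
because `Phi (t • a) = Phi a/t^2` for `t > 0`. So the derivative is `≤ 0`; use
`antitoneOn_of_hasDerivWithinAt_nonpos` or `antitoneOn_of_deriv_nonpos` on the convex set `[0,∞)`. -/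
def S_ganti : Prop :=
  ∀ (d : ℕ) (a b c : Fin d → ℝ) (l : ℝ), 2 ≤ d → 0 < l → l < 1 →
    Monotone a → Monotone b → Monotone c → Function.Injective a → Function.Injective b →
    P c = conv d (P (Real.sqrt l • a)) (P (Real.sqrt (1 - l) • b)) →
    AntitoneOn (fun s => Real.log (dis (fl c s)) - l * Real.log (dis (fl a s))
      - (1 - l) * Real.log (dis (fl b s))) (Set.Ici 0)

/-! ## Asymptotics -/

/-- The roots of the Hermite polynomial `heat d 1 (X^d)`.

Proof. `H = heat d 1 (X^d)` is real-rooted by `S_heatrr` (roots of `X^d = P 0`): `H = P h`, `h`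
monotone. It satisfies `H'' = (d-1) (X H' - d H)`: with `e = 1/(2(d-1))` and `H = exp(-e D²) X^d` one has
`exp(-e D²) (X q) = (X - 2 e D) exp(-e D²) q`, so from `X (X^d)' = d X^d`:
`X H' - 2 e H'' = d H`; or compare coefficients: `H = ∑_k (-e)^k/k! d!/(d-2k)! X^(d-2k)`.
If `H` had a multiple root `x`, then `H(x) = H'(x) = 0`, and by the equation and its derivatives
all derivatives of `H` vanish at `x`, contradiction to `H` monic of degree `d`. So `h` is strictly
increasing, and `J h i = H''(h i)/(2 H'(h i)) = (d-1) h i/2`. The sums: `S_heatsum` with `a = 0`. -/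
def S_herm : Prop :=
  ∀ d : ℕ, 2 ≤ d → ∃ h : Fin d → ℝ, StrictMono h ∧ P h = heat d 1 (X ^ d) ∧
    (∀ i, J h i = ((d : ℝ) - 1) / 2 * h i) ∧ ∑ i, h i = 0 ∧ ∑ i, h i ^ 2 = d

/-- Second order expansion of the logarithm of the discriminant at a critical point on the sphere.

Proof. Put `η_i(θ) = y θ i - h i`, so `η_i/θ^m → δ_i` as `θ → 0+`, in particular `η_i → 0` (`m ≥ 1`) and
`η = O(θ^m)`. With `t_ij = (η_i - η_j)/(h_i - h_j)` one has, for small `θ`,
`log (dis (y θ)) - log (dis h) = ∑_(i<j) 2 log (1 + t_ij)` and `log (1+t) = t - t^2/2 + O(t^3)`, so the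
difference is `2 ∑_(i<j) t_ij - ∑_(i<j) t_ij^2 + O(θ^(3m))`. Further
`2 ∑_(i<j) t_ij = 2 ∑_i η_i J h i = (d-1) ∑ h_i η_i = -((d-1)/2) ∑ η_i^2`, the last step since
`∑ (h_i + η_i)^2 = ∑ h_i^2`. Divide by `θ^(2m)`. -/
def S_taylor : Prop :=
  ∀ (d m : ℕ) (h : Fin d → ℝ) (y : ℝ → Fin d → ℝ) (delta : Fin d → ℝ), 1 ≤ m →
    Function.Injective h → (∀ i, J h i = ((d : ℝ) - 1) / 2 * h i) →
    (∀ i, Tendsto (fun th : ℝ => (y th i - h i) / th ^ m) (𝓝[>] 0) (𝓝 (delta i))) →
    (∀ᶠ th : ℝ in 𝓝[>] 0, ∑ i, (y th i) ^ 2 = ∑ i, h i ^ 2) →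
    Tendsto (fun th : ℝ => (Real.log (dis h) - Real.log (dis (y th))) / th ^ (2 * m)) (𝓝[>] 0)
      (𝓝 (((d : ℝ) - 1) / 2 * ∑ i, delta i ^ 2
        + ∑ i, ∑ j ∈ Ioi i, (delta i - delta j) ^ 2 / (h i - h j) ^ 2))

/-- The first order displacement of the roots. -/
noncomputable def dl (d : ℕ) (h : Fin d → ℝ) (m : ℕ) (i : Fin d) : ℝ :=
  -((heat d 1 (X ^ (d - m))).eval (h i)) / ∏ j ∈ univ.erase i, (h i - h j)

/-- The constant of the second order term. -/
noncomputable def Kc (d : ℕ) (h : Fin d → ℝ) (m : ℕ) : ℝ :=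
  ((d : ℝ) - 1) / 2 * ∑ i, dl d h m i ^ 2
    + ∑ i, ∑ j ∈ Ioi i, (dl d h m i - dl d h m j) ^ 2 / (h i - h j) ^ 2

/-- The roots of a perturbed Hermite polynomial.

Proof. Let `p_θ = ∑_(k ≤ d) q_k θ^k heat d 1 (X^(d-k))`, `p_0 = H = P h`. As `θ → 0+` the coefficients
converge to those of `P h`, so `y θ → h` by `S_cont`. As `q_k = 0` for `1 ≤ k < m`,
`(p_θ - H)/θ^m` tends coefficientwise to `q_m G`, `G = heat d 1 (X^(d-m))`. With `x = y θ i`:
`- H(x)/θ^m = (p_θ - H)(x)/θ^m → q_m G(h_i)` and `H(x) = (x - h_i) ∏_(j≠i) (x - h_j)`. -/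
def S_yasym : Prop :=
  ∀ (d m : ℕ) (h : Fin d → ℝ) (q : ℕ → ℝ) (y : ℝ → Fin d → ℝ), 1 ≤ m → m ≤ d →
    StrictMono h → P h = heat d 1 (X ^ d) → q 0 = 1 → (∀ k, 1 ≤ k → k < m → q k = 0) →
    (∀ᶠ th : ℝ in 𝓝[>] 0, Monotone (y th) ∧
      P (y th) = ∑ k ∈ range (d + 1), C (q k * th ^ k) * heat d 1 (X ^ (d - k))) →
    ∀ i, Tendsto (fun th : ℝ => (y th i - h i) / th ^ m) (𝓝[>] 0) (𝓝 (q m * dl d h m i))

/-- Positivity of the constant: `heat d 1 (X^(d-m))` is monic of degree `d - m < d`, so it does not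
vanish at all of the `d` distinct points `h i`; hence some `dl d h m i ≠ 0`, and
`(d-1)/2 > 0`, the other terms are `≥ 0`. -/
def S_kpos : Prop :=
  ∀ (d m : ℕ) (h : Fin d → ℝ), 2 ≤ d → 1 ≤ m → m ≤ d → Function.Injective h → 0 < Kc d h m

/-- Rescaled flow.

Proof. Let `p0 = heat d (-v) (P a)`. For `s ≥ 0` we have `P (fl a s) = heat d s (P a)
= heat d (s + v) p0` (`S_heatalg`). With `th > 0`, `s + v = 1/th^2`: the coefficient of `X^(d-i)` of
`P (th • fl a s)` is `th^i` times that of `heat d (1/th^2) p0` (`S_smul`), and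
`heat d (1/th^2) (X^(d-k))` has the coefficient of `X^(d-k-2l)` equal to
`(-(1/(th^2 2(d-1))))^l/l! (d-k)!/(d-k-2l)!`; multiplied by `th^(k+2l)` it is `th^k` times that of
`heat d 1 (X^(d-k))`. Sum over `k` with the weights `p0.coeff (d-k)` (`natDegree p0 ≤ d`). -/
def S_ypoly : Prop :=
  ∀ (d : ℕ) (a : Fin d → ℝ) (v th : ℝ), 2 ≤ d → Monotone a → Function.Injective a →
    0 < th → 0 ≤ 1 / th ^ 2 - v →
    P (th • fl a (1 / th ^ 2 - v)) = ∑ k ∈ range (d + 1),
      C ((heat d (-v) (P a)).coeff (d - k) * th ^ k) * heat d 1 (X ^ (d - k))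

/-- Asymptotics of the deficit of the logarithm of the discriminant.

Proof. Put `v = (∑ a^2)/d > 0` (`a` is injective and `d ≥ 2`), `th = (v + s)^(-1/2)`, so
`s = 1/th^2 - v`, `th → 0+` as `s → ∞`. Let `y th = th • fl a (1/th^2 - v)`, monotone for small `th`.
By `S_ypoly` and `S_yasym` (with `q k = (heat d (-v) (P a)).coeff (d-k)`, `q 0 = 1` as
`heat d (-v) (P a)` is monic of degree `d`, `S_heatalg`, `S_uniq`)
`(y th i - h i)/th^m → q_m dl d h m i`. By `S_heatsum` (`s = 1/th^2 - v`, `∑ a = 0`):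
`∑ (y th i)^2 = th^2 (∑ a^2 + d s) = th^2 d (v + s) = d = ∑ h^2`. Hence by `S_taylor`
`(log dis h - log dis (y th))/th^(2m) → q_m^2 Kc d h m`. Finally
`dis (th • u) = th^(d(d-1)) dis u`, so `log dis (y th) = log dis (fl a s) + d(d-1) log th
= log dis (fl a s) - (d(d-1)/2) log (v+s)`, and `1/th^(2m) = (v+s)^m`. -/
def S_deficit : Prop :=
  ∀ (d m : ℕ) (h a : Fin d → ℝ) (v : ℝ), 2 ≤ d → 1 ≤ m → m ≤ d →
    StrictMono h → P h = heat d 1 (X ^ d) → (∀ i, J h i = ((d : ℝ) - 1) / 2 * h i) →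
    ∑ i, h i ^ 2 = d → Monotone a → Function.Injective a → ∑ i, a i = 0 →
    v = (∑ i, a i ^ 2) / d →
    (∀ k, 1 ≤ k → k < m → (heat d (-v) (P a)).coeff (d - k) = 0) →
    Tendsto (fun s : ℝ => (v + s) ^ m * (Real.log (dis h)
      + ((d : ℝ) * ((d : ℝ) - 1) / 2) * Real.log (v + s) - Real.log (dis (fl a s)))) atTop
      (𝓝 ((heat d (-v) (P a)).coeff (d - m) ^ 2 * Kc d h m))

/-- The first coefficients of `heat d (-v) (P a)`.

Proof. With `∑ a = 0` the coefficient of `X^(d-1)` of `P a` is `0` and that of `X^(d-2)` is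
`e_2(a) = -(∑ a^2)/2`. The heat operator with `-v` adds `(v/(2(d-1))) d (d-1) = d v/2` to the latter. -/
def S_p0 : Prop :=
  ∀ (d : ℕ) (a : Fin d → ℝ) (v : ℝ), 2 ≤ d → ∑ i, a i = 0 → v = (∑ i, a i ^ 2) / d →
    (heat d (-v) (P a)).coeff (d - 1) = 0 ∧ (heat d (-v) (P a)).coeff (d - 2) = 0

/-- An elementary limit: expand `log (v + s) = log s + v/s - v^2/(2 s^2) + O(s^(-3))`. -/
def S_vareq : Prop :=
  ∀ l v w : ℝ, 0 < l → l < 1 → 0 < v → 0 < w →
    Tendsto (fun s : ℝ => s ^ 2 * (Real.log (l * v + (1 - l) * w + s) - l * Real.log (v + s)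
      - (1 - l) * Real.log (w + s))) atTop (𝓝 (l * (1 - l) * (v - w) ^ 2 / 2))

/-- Elementary algebra: by the Cauchy-Schwarz inequality
`((√l)^m x + (√(1-l))^m y)^2 ≤ (l^(m-1) + (1-l)^(m-1)) (l x^2 + (1-l) y^2)` and
`l^(m-1) + (1-l)^(m-1) < l + (1-l) = 1` for `m ≥ 3`. -/
def S_alg : Prop :=
  ∀ (l x y : ℝ) (m : ℕ), 0 < l → l < 1 → 3 ≤ m →
    (Real.sqrt l ^ m * x + Real.sqrt (1 - l) ^ m * y) ^ 2 = l * x ^ 2 + (1 - l) * y ^ 2 →
    x = 0 ∧ y = 0

/-- The first coefficient of the convolution beyond the Hermite polynomial.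

Proof. By `S_heatconv` `heat d (-v) (P c) = conv d (heat d (-(l v)) (P (√l • a)))
(heat d (-((1-l) v)) (P (√(1-l) • b)))`, and the coefficient of `X^(d-k)` of
`heat d (-(l v)) (P (√l • a))` is `(√l)^k` times that of `p0 = heat d (-v) (P a)` (computation as in
`S_heatscale`), likewise for `b`. So both factors are monic of degree `d` and have zero coefficients at
`X^(d-k)` for `1 ≤ k < m`; in the formula for `conv` the coefficient of `X^(d-k)`, `1 ≤ k ≤ m`, only the
terms with `j = 0` or `j = k` survive, with weights `d! (d-k)!/(d! (d-k)!) = 1`. -/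
def S_rcoef : Prop :=
  ∀ (d m : ℕ) (a b c : Fin d → ℝ) (l v : ℝ), 2 ≤ d → 1 ≤ m → m ≤ d → 0 < l → l < 1 →
    P c = conv d (P (Real.sqrt l • a)) (P (Real.sqrt (1 - l) • b)) →
    (∀ k, 1 ≤ k → k < m → (heat d (-v) (P a)).coeff (d - k) = 0) →
    (∀ k, 1 ≤ k → k < m → (heat d (-v) (P b)).coeff (d - k) = 0) →
    (∀ k, 1 ≤ k → k < m → (heat d (-v) (P c)).coeff (d - k) = 0) ∧
    (heat d (-v) (P c)).coeff (d - m) = Real.sqrt l ^ m * (heat d (-v) (P a)).coeff (d - m)
      + Real.sqrt (1 - l) ^ m * (heat d (-v) (P b)).coeff (d - m)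

/-- Translation.

Proof. (1) `P (a + x) = (P a).comp (X - C x)`, and by `S_convop` the convolution is a differential
operator with constant coefficients applied to the first factor, hence commutes with translations of
it; use the symmetry of `conv` for the second factor. (2) The discriminant only depends on
differences, (3) and is homogeneous of degree `d(d-1)`: there are `d(d-1)/2` pairs. (4) A permutation
does not change it: `∏_(i<j) (a i - a j)^2` is a symmetric expression (e.g. it is, up to sign, the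
product of all `(a i - a j)` over ordered pairs `i ≠ j`; the number of pairs fixes the sign).
(5) It is positive exactly for injective vectors. -/
def S_trans : Prop :=
  (∀ (d : ℕ) (a b c : Fin d → ℝ) (x y : ℝ), P c = conv d (P a) (P b) →
    P (fun i => c i + (x + y)) = conv d (P (fun i => a i + x)) (P (fun i => b i + y))) ∧
  (∀ (d : ℕ) (a : Fin d → ℝ) (x : ℝ), dis (fun i => a i + x) = dis a) ∧
  (∀ (d : ℕ) (a : Fin d → ℝ) (t : ℝ), dis (t • a) = t ^ (d * (d - 1)) * dis a) ∧
  (∀ (d : ℕ) (a : Fin d → ℝ) (s : Equiv.Perm (Fin d)), dis (a ∘ s) = dis a) ∧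
  (∀ (d : ℕ) (a : Fin d → ℝ), 0 < dis a ↔ Function.Injective a)

/-- The generalized Hermite polynomials as translates of `heat d v (X^d)`.

Proof. The operators `-μ D` and `-(v/(2(d-1))) D²` commute and are nilpotent on polynomials of degree
`≤ d`, so the (finite) exponential series of the sum is the product of the exponential series:
`herm d mu v = exp(-μ D) (heat d v (X^d))`, and `exp(-μ D) q = q(X - μ)` is Taylor's formula
(Mathlib: `Polynomial.taylor`, `Polynomial.hasseDeriv`). -/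
def S_herm2 : Prop :=
  ∀ (d : ℕ) (mu v : ℝ) (a : Fin d → ℝ), 2 ≤ d → P a = heat d v (X ^ d) →
    P (fun i => a i + mu) = herm d mu v

end Pool.Agent.Q83.FF
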