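import Pool.Agent.Q83.FF.Fin
import Pool.Agent.Q144.FF.CONT
import Pool.Agent.Q144.FF.GWS
import Pool.Agent.Q144.FF.POLAR
import Pool.Agent.Q144.FF.RR
import Pool.Agent.Q144.FF.TRANS
import Pool.Agent.Q206.FF.CONVOP
import Pool.Agent.Q206.FF.HEATALG
import Pool.Agent.Q206.FF.SMUL
import Pool.Agent.Q272.FF.FLOW
import Pool.Agent.Q272.FF.TAYLOR
import Pool.Agent.Q272.FF.UNIQ
import Pool.Agent.Q272.FF.SUMS
import Pool.Agent.Q272.FF.SUB
import Pool.Agent.Q166.FF.COINC
import Pool.Agent.Q166.FF.HEATSUM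
import Pool.Agent.Q166.FF.LIP
import Pool.Agent.Q166.FF.OM3
import Pool.Agent.Q166.FF.SYM
import Pool.Agent.Q211.FF.ABEL
import Pool.Agent.Q211.FF.ALG
import Pool.Agent.Q211.FF.GROWTH
import Pool.Agent.Q211.FF.HEATSIMPLE
import Pool.Agent.Q211.FF.LINES
import Pool.Agent.Q211.FF.OM1
import Pool.Agent.Q211.FF.OM2
import Pool.Agent.Q211.FF.ROOTDERIV
import Pool.Agent.Q211.FF.SIMPLE
import Pool.Agent.Q102.FF.ABS
import Pool.Agent.Q102.FF.DENS
import Pool.Agent.Q102.FF.POLY2
import Pool.Agent.Q102.FF.PRODPOLY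
import Pool.Agent.Q102.FF.STAM
import Pool.Agent.Q234.FF.SUBGEN
import Pool.Agent.Q128.FF.PERT
import Pool.Agent.Q128.FF.RCOEF
import Pool.Agent.Q203.FF.P0
import Pool.Agent.Q203.FF.Two
import Pool.Agent.Q203.FF.Vareq
import Pool.Agent.Q203.FF.Herm2
import Pool.Agent.Q95.FF.HEATRR
import Pool.Agent.Q298.FF.Ent
import Pool.Agent.Q298.FF.GAnti
import Pool.Agent.Q298.FF.Herm
import Pool.Agent.Q298.FF.KPos
import Pool.Agent.Q298.FF.RFlow
import Pool.Agent.Q298.FF.YAsym
import Pool.Agent.Q298.FF.YPoly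
import Pool.Agent.Q298.FF.Deficit

/-!
# Project FF: all lemmas, without hypotheses
-/

set_option autoImplicit false

namespace Pool.Agent.Q83.FF

theorem uniq : S_uniq := Q272.FF.t_uniq
theorem convop : S_convop := Q206.FF.t_convop
theorem convbasic : S_convbasic := Q206.FF.t_convbasic
theorem gws : S_gws := Q144.FF.t_gws Q144.FF.t_polar
theorem rr : S_rr := Q144.FF.t_rr gws convop convbasic uniq
theorem cont : S_cont := Q144.FF.t_cont uniq
theorem sym : S_sym := Q166.FF.t_sym
theorem growth : S_growth := Q211.FF.t_growth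
theorem lines : S_lines := Q211.FF.t_lines
theorem abs' : S_abs := Q102.FF.t_abs
theorem poly2 : S_poly2 := Q102.FF.t_poly2
theorem dens : S_dens := Q102.FF.t_dens rr uniq sym poly2 convbasic
theorem sums : S_sums := Q272.FF.t_sums
theorem smul' : S_smul := Q206.FF.t_smul
theorem om1 : S_om1 := Q211.FF.t_om1 rr uniq
theorem om2 : S_om2 := Q211.FF.t_om2 om1 cont
theorem om3 : S_om3 := Q166.FF.t_om3 om1 smul' sums uniq
theorem prodpoly : S_prodpoly := Q102.FF.t_prodpoly om1 om3 sym poly2 growth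
theorem coinc : S_coinc := Q166.FF.t_coinc om1 sym poly2
theorem subgen : S_subgen := Q234.FF.SUBGEN.t_subgen om1 om2 om3 prodpoly coinc lines abs'
theorem sub : S_sub := Q272.FF.t_sub om1 om2 dens subgen
theorem abel : S_abel := Q211.FF.t_abel
theorem lip : S_lip := Q166.FF.t_lip rr sub abel sums
theorem pert : S_pert := Q128.FF.t_pert uniq
theorem two : S_two := Q203.FF.t_two
theorem simple : S_simple := Q211.FF.t_simple pert two rr convbasic uniq
theorem heatalg : S_heatalg := Q206.FF.t_heatalg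
theorem heatconv : S_heatconv := Q206.FF.t_heatconv
theorem heatscale : S_heatscale := Q206.FF.t_heatscale
theorem heatsum : S_heatsum := Q166.FF.t_heatsum
theorem heatrr : S_heatrr := Q95.FF.t_heatrr rr convop uniq
theorem heatsimple : S_heatsimple := Q211.FF.t_heatsimple pert two heatrr heatalg
theorem rootderiv : S_rootderiv := Q211.FF.t_rootderiv
theorem flow : S_flow := Q272.FF.t_flow heatrr uniq heatsimple heatalg cont rootderiv
theorem stam : S_stam := Q102.FF.t_stam flow heatconv lip heatsum simple uniq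
theorem ent : S_ent := Q298.FF.t_ent flow
theorem rflow : S_rflow := Q298.FF.t_rflow flow heatconv heatscale simple uniq
theorem ganti : S_ganti := Q298.FF.t_ganti ent rflow stam flow
theorem hermr : S_herm := Q298.FF.t_herm heatrr heatsum uniq
theorem taylor' : S_taylor := Q272.FF.t_taylor
theorem yasym : S_yasym := Q298.FF.t_yasym cont heatalg
theorem kpos : S_kpos := Q298.FF.t_kpos heatalg
theorem ypoly : S_ypoly := Q298.FF.t_ypoly flow heatalg smul'
theorem deficit : S_deficit := Q298.FF.t_deficit ypoly yasym taylor' heatsum flow heatalg uniq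
theorem p0 : S_p0 := Q203.FF.t_p0
theorem vareq : S_vareq := Q203.FF.t_vareq
theorem alg : S_alg := Q211.FF.t_alg
theorem rcoef : S_rcoef := Q128.FF.RC.t_rcoef heatconv smul' convbasic heatalg
theorem trans' : S_trans := Q144.FF.t_trans convop convbasic uniq
theorem herm2 : S_herm2 := Q203.FF.t_herm2

end Pool.Agent.Q83.FF
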