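import Mathlib

/-!
# Finite free additive convolution: definitions

Polynomials are handled through root vectors `a : Fin d → ℝ`; `P a = ∏ (X - a i)`.
-/

namespace Pool.Agent.Q83.FF

open Polynomial Finset

/-- The monic polynomial of degree `d` with the roots `a 0, …, a (d-1)`. -/
noncomputable def P {d : ℕ} (a : Fin d → ℝ) : ℝ[X] := ∏ i, (X - C (a i))

/-- The finite free additive convolution of degree `d`: for
`p = ∑ (-1)^i a_i x^(d-i)` and `q = ∑ (-1)^i b_i x^(d-i)` it is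
`∑ (-1)^i x^(d-i) ∑_(j+k=i) (d-j)! (d-k)! / (d! (d-i)!) a_j b_k`. -/
noncomputable def conv (d : ℕ) (p q : ℝ[X]) : ℝ[X] :=
  ∑ i ∈ range (d + 1), C ((-1 : ℝ) ^ i * ∑ jk ∈ antidiagonal i,
    ((Nat.factorial (d - jk.1) : ℝ) * (Nat.factorial (d - jk.2) : ℝ))
      / ((Nat.factorial d : ℝ) * (Nat.factorial (d - i) : ℝ))
      * ((-1 : ℝ) ^ jk.1 * p.coeff (d - jk.1)) * ((-1 : ℝ) ^ jk.2 * q.coeff (d - jk.2)))
    * X ^ (d - i)

/-- The discriminant of the root vector `a`: the product of `(a i - a j)^2` over `i < j`. -/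
noncomputable def dis {d : ℕ} (a : Fin d → ℝ) : ℝ := ∏ i, ∏ j ∈ Ioi i, (a i - a j) ^ 2

/-- The operator `- μ D - σ²/(2(d-1)) D²` on polynomials. -/
noncomputable def hop (d : ℕ) (mu v : ℝ) (p : ℝ[X]) : ℝ[X] :=
  -(C mu * derivative p) - C (v / (2 * ((d : ℝ) - 1))) * derivative (derivative p)

/-- The generalized Hermite polynomial `exp(- μ D - σ²/(2(d-1)) D²) x^d` (the exponential series
stops, because the operator lowers degrees). -/
noncomputable def herm (d : ℕ) (mu v : ℝ) : ℝ[X] :=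
  ∑ n ∈ range (d + 1), C ((1 : ℝ) / (Nat.factorial n : ℝ)) * (hop d mu v)^[n] (X ^ d)

/-- The heat semigroup `exp(- s/(2(d-1)) D²)` on polynomials of degree at most `d`. -/
noncomputable def heat (d : ℕ) (s : ℝ) (p : ℝ[X]) : ℝ[X] :=
  ∑ k ∈ range (d + 1), C ((-(s / (2 * ((d : ℝ) - 1)))) ^ k / (Nat.factorial k : ℝ))
    * derivative^[2 * k] p

/-- `J a i = ∑_(j ≠ i) 1 / (a i - a j)`. -/
noncomputable def J {d : ℕ} (a : Fin d → ℝ) (i : Fin d) : ℝ :=
  ∑ j ∈ univ.erase i, (a i - a j)⁻¹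

/-- The finite free Fisher information `∑ (J a i)^2`. -/
noncomputable def Phi {d : ℕ} (a : Fin d → ℝ) : ℝ := ∑ i, J a i ^ 2

/-- The sorted root vector of a polynomial that is a product of `d` real linear factors
(the zero vector if there is none). -/
noncomputable def rt (d : ℕ) (p : ℝ[X]) : Fin d → ℝ :=
  open Classical in
  if h : ∃ c : Fin d → ℝ, Monotone c ∧ P c = p then h.choose else 0

/-- The flow of root vectors under the heat semigroup. -/
noncomputable def fl {d : ℕ} (a : Fin d → ℝ) (s : ℝ) : Fin d → ℝ := rt d (heat d s (P a))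

end Pool.Agent.Q83.FF
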