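import Pool.Agent.Q83.FF.Stm

/-!
# The equality case, from the statements of the lemmas
-/

set_option autoImplicit false

namespace Pool.Agent.Q83.FF

open Polynomial Finset Filter Topology

/-- The deficit functional: with `m = 2` it is `o(s^(-2))`. -/
theorem def_two (h_def : S_deficit) (h_p0 : S_p0) (d : ℕ) (hd : 2 ≤ d) (h a : Fin d → ℝ)
    (hh : StrictMono h) (hP : P h = heat d 1 (X ^ d))
    (hJ : ∀ i, J h i = ((d : ℝ) - 1) / 2 * h i) (hs : ∑ i, h i ^ 2 = d)
    (ham : Monotone a) (hai : Function.Injective a) (ha0 : ∑ i, a i = 0) (v : ℝ)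
    (hv : v = (∑ i, a i ^ 2) / d) :
    Tendsto (fun s : ℝ => s ^ 2 * (Real.log (dis h)
      + ((d : ℝ) * ((d : ℝ) - 1) / 2) * Real.log (v + s) - Real.log (dis (fl a s)))) atTop
      (𝓝 0) := by
  have hp := h_p0 d a v hd ha0 hv
  have h1 := h_def d 2 h a v hd (by norm_num) hd hh hP hJ hs ham hai ha0 hv (by
    intro k hk1 hk2
    have : k = 1 := by omega
    subst this
    exact hp.1)
  rw [hp.2] at h1
  have h2 : Tendsto (fun s : ℝ => (s / (v + s)) ^ 2) atTop (𝓝 1) := by
    have h3 : Tendsto (fun s : ℝ => s / (v + s)) atTop (𝓝 1) := by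
      have h4 : Tendsto (fun s : ℝ => 1 - v / (v + s)) atTop (𝓝 (1 - 0)) := by
        apply Tendsto.sub tendsto_const_nhds
        apply Tendsto.div_atTop tendsto_const_nhds
        exact tendsto_atTop_add_const_left _ _ tendsto_id
      rw [sub_zero] at h4
      refine h4.congr' ?_
      filter_upwards [eventually_gt_atTop (-v)] with s hs
      have : v + s ≠ 0 := by linarith
      field_simp
      ring
    simpa using h3.pow 2
  have h5 := h2.mul h1
  simp only [ne_eq, OfNat.ofNat_ne_zero, not_false_eq_true, zero_pow, zero_mul, mul_zero] at h5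
  refine h5.congr' ?_
  filter_upwards [eventually_gt_atTop (-v)] with s hs
  have : v + s ≠ 0 := by linarith
  field_simp

/-- The core of the equality case. -/
theorem eq_core (h_def : S_deficit) (h_p0 : S_p0) (h_herm : S_herm) (h_ganti : S_ganti)
    (h_rflow : S_rflow) (h_flow : S_flow) (h_sums : S_sums) (h_vareq : S_vareq) (h_alg : S_alg)
    (h_rcoef : S_rcoef) (h_kpos : S_kpos) (h_heatalg : S_heatalg) (h_uniq : S_uniq)
    (d : ℕ) (hd : 2 ≤ d) (a b c : Fin d → ℝ) (l : ℝ) (hl0 : 0 < l) (hl1 : l < 1)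
    (ham : Monotone a) (hbm : Monotone b) (hcm : Monotone c)
    (hai : Function.Injective a) (hbi : Function.Injective b)
    (ha0 : ∑ i, a i = 0) (hb0 : ∑ i, b i = 0)
    (hc : P c = conv d (P (Real.sqrt l • a)) (P (Real.sqrt (1 - l) • b)))
    (hG : Real.log (dis c) = l * Real.log (dis a) + (1 - l) * Real.log (dis b)) :
    ∃ v : ℝ, 0 ≤ v ∧ P a = heat d v (X ^ d) ∧ P b = heat d v (X ^ d) := by
  obtain ⟨h, hh, hP, hJ, -, hs⟩ := h_herm d hd
  have hdpos : (0 : ℝ) < d := by positivity
  have hd1 : (1 : ℝ) < d := by exact_mod_cast (by omega : 1 < d)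
  obtain ⟨hci, hrf⟩ := h_rflow d a b c l hd hl0 hl1 ham hbm hcm hai hbi hc
  have hsl : Real.sqrt l ^ 2 = l := Real.sq_sqrt hl0.le
  have hsl1 : Real.sqrt (1 - l) ^ 2 = 1 - l := Real.sq_sqrt (by linarith)
  obtain ⟨hcs1, hcs2⟩ := h_sums d _ _ c hc
  have hsa : ∑ i, (Real.sqrt l • a) i = 0 := by
    simp only [Pi.smul_apply, smul_eq_mul, ← Finset.mul_sum, ha0, mul_zero]
  have hsb : ∑ i, (Real.sqrt (1 - l) • b) i = 0 := by
    simp only [Pi.smul_apply, smul_eq_mul, ← Finset.mul_sum, hb0, mul_zero]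
  have hc0 : ∑ i, c i = 0 := by rw [hcs1, hsa, hsb]; simp
  have hsa2 : ∑ i, (Real.sqrt l • a) i ^ 2 = l * ∑ i, a i ^ 2 := by
    simp only [Pi.smul_apply, smul_eq_mul, mul_pow, hsl, ← Finset.mul_sum]
  have hsb2 : ∑ i, (Real.sqrt (1 - l) • b) i ^ 2 = (1 - l) * ∑ i, b i ^ 2 := by
    simp only [Pi.smul_apply, smul_eq_mul, mul_pow, hsl1, ← Finset.mul_sum]
  set va : ℝ := (∑ i, a i ^ 2) / d with hva
  set vb : ℝ := (∑ i, b i ^ 2) / d with hvb
  set vc : ℝ := (∑ i, c i ^ 2) / d with hvc
  have hvc' : vc = l * va + (1 - l) * vb := by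
    rw [hvc, hva, hvb, hcs2, hsa, hsa2, hsb2]; ring
  have pos : ∀ x : Fin d → ℝ, Function.Injective x → 0 < (∑ i, x i ^ 2) / (d : ℝ) := by
    intro x hx
    apply div_pos _ hdpos
    rcases (Finset.sum_nonneg (fun i (_ : i ∈ univ) => sq_nonneg (x i))).lt_or_eq with h1 | h1
    · exact h1
    · exfalso
      have h2 := (Finset.sum_eq_zero_iff_of_nonneg
        (fun i (_ : i ∈ univ) => sq_nonneg (x i))).1 h1.symm
      have h3 : x ⟨0, by omega⟩ = x ⟨1, by omega⟩ := by
        have e1 := h2 ⟨0, by omega⟩ (mem_univ _)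
        have e2 := h2 ⟨1, by omega⟩ (mem_univ _)
        rw [pow_eq_zero_iff (by norm_num)] at e1 e2
        rw [e1, e2]
      have := hx h3
      simp at this
  have hvapos : 0 < va := pos a hai
  have hvbpos : 0 < vb := pos b hbi
  set N : ℝ := (d : ℝ) * ((d : ℝ) - 1) / 2 with hN
  have hNpos : 0 < N := by rw [hN]; apply div_pos (mul_pos hdpos (by linarith)) (by norm_num)
  set G : ℝ → ℝ := fun s => Real.log (dis (fl c s)) - l * Real.log (dis (fl a s))
      - (1 - l) * Real.log (dis (fl b s)) with hGdef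
  have hanti : AntitoneOn G (Set.Ici 0) := h_ganti d a b c l hd hl0 hl1 ham hbm hcm hai hbi hc
  have hG0 : G 0 = 0 := by
    rw [hGdef]
    simp only
    rw [(h_flow d a hd ham hai).1, (h_flow d b hd hbm hbi).1, (h_flow d c hd hcm hci).1, hG]
    ring
  have hDa := def_two h_def h_p0 d hd h a hh hP hJ hs ham hai ha0 va hva
  have hDb := def_two h_def h_p0 d hd h b hh hP hJ hs hbm hbi hb0 vb hvb
  have hDc := def_two h_def h_p0 d hd h c hh hP hJ hs hcm hci hc0 vc hvc
  have hlim := h_vareq l va vb hl0 hl1 hvapos hvbpos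
  have hs2G : Tendsto (fun s : ℝ => s ^ 2 * G s) atTop
      (𝓝 (N * (l * (1 - l) * (va - vb) ^ 2 / 2))) := by
    have h1 := ((hlim.const_mul N).sub hDc).add ((hDa.const_mul l).add (hDb.const_mul (1 - l)))
    have e : N * (l * (1 - l) * (va - vb) ^ 2 / 2) - 0 + (l * 0 + (1 - l) * 0)
        = N * (l * (1 - l) * (va - vb) ^ 2 / 2) := by ring
    rw [e] at h1
    refine h1.congr ?_
    intro s
    rw [hGdef]
    simp only
    rw [hvc']
    ring
  have hGlim : Tendsto G atTop (𝓝 0) := by
    have h1 : Tendsto (fun s : ℝ => (s ^ 2)⁻¹) atTop (𝓝 0) :=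
      (tendsto_pow_atTop (by norm_num)).inv_tendsto_atTop
    have h2 := h1.mul hs2G
    rw [zero_mul] at h2
    refine h2.congr' ?_
    filter_upwards [eventually_gt_atTop 0] with s hs
    have : s ^ 2 ≠ 0 := by positivity
    field_simp
  have hGz : ∀ s : ℝ, 0 ≤ s → G s = 0 := by
    intro s hs0
    apply le_antisymm
    · rw [← hG0]; exact hanti (Set.mem_Ici.2 le_rfl) (Set.mem_Ici.2 hs0) hs0
    · apply le_of_tendsto hGlim
      filter_upwards [eventually_ge_atTop s] with u hu
      exact hanti (Set.mem_Ici.2 hs0) (Set.mem_Ici.2 (hs0.trans hu)) hu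
  have hveq : va = vb := by
    have h1 : Tendsto (fun s : ℝ => s ^ 2 * G s) atTop (𝓝 0) := by
      refine tendsto_const_nhds.congr' ?_
      filter_upwards [eventually_ge_atTop 0] with s hs
      rw [hGz s hs, mul_zero]
    have h2 := tendsto_nhds_unique hs2G h1
    have h3 : (va - vb) ^ 2 = 0 := by
      have h4 : 0 < N * (l * (1 - l)) := by
        apply mul_pos hNpos; apply mul_pos hl0; linarith
      have h5 : N * (l * (1 - l)) * (va - vb) ^ 2 = 0 := by linarith
      rcases mul_eq_zero.1 h5 with h6 | h6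
      · exact absurd h6 h4.ne'
      · exact h6
    have h6 := pow_eq_zero_iff (n := 2) (by norm_num) |>.1 h3
    linarith
  have hvceq : vc = va := by rw [hvc', ← hveq]; ring
  have hzero : ∀ m : ℕ, 1 ≤ m → m ≤ d → (heat d (-va) (P a)).coeff (d - m) = 0 ∧
      (heat d (-va) (P b)).coeff (d - m) = 0 := by
    intro m
    induction m using Nat.strong_induction_on with
    | _ m ih =>
      intro hm1 hmd
      by_cases hm3 : m < 3
      · have hpa := h_p0 d a va hd ha0 hva
        have hpb := h_p0 d b vb hd hb0 hvb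
        rw [← hveq] at hpb
        have : m = 1 ∨ m = 2 := by omega
        rcases this with rfl | rfl
        · exact ⟨hpa.1, hpb.1⟩
        · exact ⟨hpa.2, hpb.2⟩
      · push Not at hm3
        have hka : ∀ k, 1 ≤ k → k < m → (heat d (-va) (P a)).coeff (d - k) = 0 :=
          fun k hk1 hk2 => (ih k hk2 hk1 (by omega)).1
        have hkb : ∀ k, 1 ≤ k → k < m → (heat d (-va) (P b)).coeff (d - k) = 0 :=
          fun k hk1 hk2 => (ih k hk2 hk1 (by omega)).2
        obtain ⟨hkc, hcc⟩ := h_rcoef d m a b c l va hd hm1 hmd hl0 hl1 hc hka hkb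
        have hTa := h_def d m h a va hd hm1 hmd hh hP hJ hs ham hai ha0 hva hka
        have hTb := h_def d m h b va hd hm1 hmd hh hP hJ hs hbm hbi hb0 (by rw [hveq]) hkb
        have hTc := h_def d m h c va hd hm1 hmd hh hP hJ hs hcm hci hc0 (by rw [← hvceq]) hkc
        have hcomb := ((hTa.const_mul l).add (hTb.const_mul (1 - l)))
        have huniq : (heat d (-va) (P c)).coeff (d - m) ^ 2 * Kc d h m
            = l * ((heat d (-va) (P a)).coeff (d - m) ^ 2 * Kc d h m)
              + (1 - l) * ((heat d (-va) (P b)).coeff (d - m) ^ 2 * Kc d h m) := by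
          refine tendsto_nhds_unique hTc (hcomb.congr' ?_)
          filter_upwards [eventually_ge_atTop 0] with s hs
          have hg := hGz s hs
          rw [hGdef] at hg
          simp only at hg
          have e : Real.log (dis (fl c s)) = l * Real.log (dis (fl a s))
            + (1 - l) * Real.log (dis (fl b s)) := by linarith
          rw [e]
          ring
        have hK := h_kpos d m h hd hm1 hmd hh.injective
        have h9 : (heat d (-va) (P c)).coeff (d - m) ^ 2
            = l * (heat d (-va) (P a)).coeff (d - m) ^ 2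
              + (1 - l) * (heat d (-va) (P b)).coeff (d - m) ^ 2 := by
          have h10 : ((heat d (-va) (P c)).coeff (d - m) ^ 2
            - (l * (heat d (-va) (P a)).coeff (d - m) ^ 2
              + (1 - l) * (heat d (-va) (P b)).coeff (d - m) ^ 2)) * Kc d h m = 0 := by
            linarith
          rcases mul_eq_zero.1 h10 with h11 | h11
          · linarith
          · exact absurd h11 hK.ne'
        rw [hcc] at h9
        exact h_alg l _ _ m hl0 hl1 hm3 h9
  obtain ⟨hadd, hz0, -, -, -, hdeg, hmon⟩ := h_heatalg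
  have hfin : ∀ x : Fin d → ℝ, (∀ m : ℕ, 1 ≤ m → m ≤ d →
      (heat d (-va) (P x)).coeff (d - m) = 0) → P x = heat d va (X ^ d) := by
    intro x hx
    obtain ⟨hxm, hxd⟩ := h_uniq.2.2.1 d x
    have h1 : heat d (-va) (P x) = X ^ d := by
      obtain ⟨hm1, hm2⟩ := hmon d (-va) (P x) hxm hxd
      ext n
      rw [coeff_X_pow]
      by_cases hn : n = d
      · rw [if_pos hn, hn]
        have := hm1.coeff_natDegree
        rwa [hm2] at this
      · rw [if_neg hn]
        by_cases hnd : n < d
        · have := hx (d - n) (by omega) (by omega)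
          rwa [show d - (d - n) = n by omega] at this
        · apply coeff_eq_zero_of_natDegree_lt
          rw [hm2]; omega
    rw [← h1, hadd d va (-va) (P x) hxd.le, add_neg_cancel, hz0]
  exact ⟨va, hvapos.le, hfin a (fun m h1 h2 => (hzero m h1 h2).1),
    hfin b (fun m h1 h2 => (hzero m h1 h2).2)⟩

end Pool.Agent.Q83.FF
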