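import Pool.Agent.Q83.FF.Eq

/-!
# From equality in the entropy power inequality to the core
-/

set_option autoImplicit false

namespace Pool.Agent.Q83.FF

open Polynomial Finset Filter Topology

theorem P_zero (d : ℕ) : P (0 : Fin d → ℝ) = X ^ d := by
  simp [P]

theorem choose_cast (d : ℕ) : ((d.choose 2 : ℕ) : ℝ) = (d : ℝ) * ((d : ℝ) - 1) / 2 :=
  Nat.cast_choose_two ℝ d

theorem log_dis_smul (h_trans : S_trans) (d : ℕ) (a : Fin d → ℝ) (ha : 0 < dis a) (t : ℝ)
    (ht : 0 < t) :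
    Real.log (dis (t • a)) = Real.log (dis a) + (d : ℝ) * ((d : ℝ) - 1) * Real.log t := by
  rw [h_trans.2.2.1 d a t, Real.log_mul (by positivity) ha.ne', Real.log_pow]
  have : ((d * (d - 1) : ℕ) : ℝ) = (d : ℝ) * ((d : ℝ) - 1) := by
    rcases Nat.eq_zero_or_pos d with h | h
    · subst h; simp
    · push_cast [Nat.cast_sub (show 1 ≤ d from h)]; ring
  rw [this]; ring

/-- The equality case for sorted centred vectors. -/
theorem eq_sorted (h_def : S_deficit) (h_p0 : S_p0) (h_herm : S_herm) (h_ganti : S_ganti)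
    (h_rflow : S_rflow) (h_flow : S_flow) (h_sums : S_sums) (h_vareq : S_vareq) (h_alg : S_alg)
    (h_rcoef : S_rcoef) (h_kpos : S_kpos) (h_heatalg : S_heatalg) (h_uniq : S_uniq)
    (h_trans : S_trans) (h_heatscale : S_heatscale)
    (d : ℕ) (hd : 2 ≤ d) (a b c : Fin d → ℝ)
    (ham : Monotone a) (hbm : Monotone b) (hcm : Monotone c)
    (hai : Function.Injective a) (hbi : Function.Injective b)
    (ha0 : ∑ i, a i = 0) (hb0 : ∑ i, b i = 0)
    (hc : P c = conv d (P a) (P b))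
    (heq : dis c ^ ((1 : ℝ) / (d.choose 2 : ℕ)) = dis a ^ ((1 : ℝ) / (d.choose 2 : ℕ))
      + dis b ^ ((1 : ℝ) / (d.choose 2 : ℕ))) :
    (∃ v : ℝ, 0 ≤ v ∧ P a = heat d v (X ^ d)) ∧ (∃ v : ℝ, 0 ≤ v ∧ P b = heat d v (X ^ d)) := by
  have hda : 0 < dis a := (h_trans.2.2.2.2 d a).2 hai
  have hdb : 0 < dis b := (h_trans.2.2.2.2 d b).2 hbi
  set N : ℝ := ((d.choose 2 : ℕ) : ℝ) with hN
  have hN2 : (d : ℝ) * ((d : ℝ) - 1) = 2 * N := by rw [hN, choose_cast]; ring
  have hNpos : 0 < N := by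
    rw [hN]; exact_mod_cast Nat.choose_pos hd
  set A : ℝ := dis a ^ ((1 : ℝ) / N) with hA
  set B : ℝ := dis b ^ ((1 : ℝ) / N) with hB
  have hApos : 0 < A := Real.rpow_pos_of_pos hda _
  have hBpos : 0 < B := Real.rpow_pos_of_pos hdb _
  have hlogA : Real.log (dis a) = N * Real.log A := by
    rw [hA, Real.log_rpow hda]; field_simp
  have hlogB : Real.log (dis b) = N * Real.log B := by
    rw [hB, Real.log_rpow hdb]; field_simp
  have hdc0 : 0 ≤ dis c := by
    unfold dis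
    exact Finset.prod_nonneg (fun i _ => Finset.prod_nonneg (fun j _ => sq_nonneg _))
  have hdc : 0 < dis c := by
    rcases hdc0.lt_or_eq with h | h
    · exact h
    · exfalso
      rw [← h, Real.zero_rpow (by positivity)] at heq
      linarith
  have hlogC : Real.log (dis c) = N * Real.log (A + B) := by
    rw [← heq, Real.log_rpow hdc]; field_simp
  set l : ℝ := A / (A + B) with hl
  have hABpos : 0 < A + B := by positivity
  have hl0 : 0 < l := by positivity
  have hl1 : l < 1 := by rw [hl, div_lt_one hABpos]; linarith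
  have h1l : 1 - l = B / (A + B) := by rw [hl]; field_simp; ring
  have h1l0 : 0 < 1 - l := by linarith
  have hsl : 0 < Real.sqrt l := Real.sqrt_pos.2 hl0
  have hsl1 : 0 < Real.sqrt (1 - l) := Real.sqrt_pos.2 h1l0
  set a0 : Fin d → ℝ := (Real.sqrt l)⁻¹ • a with ha0def
  set b0 : Fin d → ℝ := (Real.sqrt (1 - l))⁻¹ • b with hb0def
  have e1 : Real.sqrt l • a0 = a := by
    rw [ha0def, smul_smul, mul_inv_cancel₀ hsl.ne', one_smul]
  have e2 : Real.sqrt (1 - l) • b0 = b := by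
    rw [hb0def, smul_smul, mul_inv_cancel₀ hsl1.ne', one_smul]
  have ham0 : Monotone a0 := fun i j hij => by
    simp only [ha0def, Pi.smul_apply, smul_eq_mul]
    exact mul_le_mul_of_nonneg_left (ham hij) (inv_pos.2 hsl).le
  have hbm0 : Monotone b0 := fun i j hij => by
    simp only [hb0def, Pi.smul_apply, smul_eq_mul]
    exact mul_le_mul_of_nonneg_left (hbm hij) (inv_pos.2 hsl1).le
  have hai0 : Function.Injective a0 := fun i j hij => by
    simp only [ha0def, Pi.smul_apply, smul_eq_mul] at hij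
    exact hai (mul_left_cancel₀ (inv_pos.2 hsl).ne' hij)
  have hbi0 : Function.Injective b0 := fun i j hij => by
    simp only [hb0def, Pi.smul_apply, smul_eq_mul] at hij
    exact hbi (mul_left_cancel₀ (inv_pos.2 hsl1).ne' hij)
  have hsa0 : ∑ i, a0 i = 0 := by
    simp only [ha0def, Pi.smul_apply, smul_eq_mul, ← Finset.mul_sum, ha0, mul_zero]
  have hsb0 : ∑ i, b0 i = 0 := by
    simp only [hb0def, Pi.smul_apply, smul_eq_mul, ← Finset.mul_sum, hb0, mul_zero]
  have hG : Real.log (dis c) = l * Real.log (dis a0) + (1 - l) * Real.log (dis b0) := by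
    have h1 : Real.log (dis a0) = N * Real.log (A + B) := by
      rw [ha0def, log_dis_smul h_trans d a hda _ (inv_pos.2 hsl), hN2, Real.log_inv,
        Real.log_sqrt hl0.le, hlogA, hl, Real.log_div hApos.ne' hABpos.ne']
      ring
    have h2 : Real.log (dis b0) = N * Real.log (A + B) := by
      rw [hb0def, log_dis_smul h_trans d b hdb _ (inv_pos.2 hsl1), hN2, Real.log_inv,
        Real.log_sqrt h1l0.le, hlogB, h1l, Real.log_div hBpos.ne' hABpos.ne']
      ring
    rw [h1, h2, hlogC]; ring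
  obtain ⟨v, hv0, hPa, hPb⟩ := eq_core h_def h_p0 h_herm h_ganti h_rflow h_flow h_sums h_vareq
    h_alg h_rcoef h_kpos h_heatalg h_uniq d hd a0 b0 c l hl0 hl1 ham0 hbm0 hcm hai0 hbi0 hsa0 hsb0
    (by rw [e1, e2]; exact hc) hG
  have hz : ∀ t : ℝ, (t • (0 : Fin d → ℝ)) = 0 := fun t => smul_zero t
  refine ⟨⟨Real.sqrt l ^ 2 * v, by positivity, ?_⟩, ⟨Real.sqrt (1 - l) ^ 2 * v, by positivity, ?_⟩⟩
  · have := h_heatscale d 0 a0 v (Real.sqrt l) (by rw [P_zero]; exact hPa)
    rwa [e1, hz, P_zero] at this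
  · have := h_heatscale d 0 b0 v (Real.sqrt (1 - l)) (by rw [P_zero]; exact hPb)
    rwa [e2, hz, P_zero] at this

/-- Equality in the entropy power inequality forces generalized Hermite polynomials. -/
theorem eq_case (h_def : S_deficit) (h_p0 : S_p0) (h_herm : S_herm) (h_ganti : S_ganti)
    (h_rflow : S_rflow) (h_flow : S_flow) (h_sums : S_sums) (h_vareq : S_vareq) (h_alg : S_alg)
    (h_rcoef : S_rcoef) (h_kpos : S_kpos) (h_heatalg : S_heatalg) (h_uniq : S_uniq)
    (h_trans : S_trans) (h_heatscale : S_heatscale) (h_herm2 : S_herm2)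
    (d : ℕ) (hd : 2 ≤ d) (a b c : Fin d → ℝ)
    (hai : Function.Injective a) (hbi : Function.Injective b)
    (hc : P c = conv d (P a) (P b))
    (heq : dis c ^ ((1 : ℝ) / (d.choose 2 : ℕ)) = dis a ^ ((1 : ℝ) / (d.choose 2 : ℕ))
      + dis b ^ ((1 : ℝ) / (d.choose 2 : ℕ))) :
    (∃ mu v : ℝ, 0 ≤ v ∧ P a = herm d mu v) ∧ (∃ mu v : ℝ, 0 ≤ v ∧ P b = herm d mu v) := by
  obtain ⟨sa, hsa, hPsa⟩ := h_uniq.2.1 d a
  obtain ⟨sb, hsb, hPsb⟩ := h_uniq.2.1 d b
  obtain ⟨sc, hsc, hPsc⟩ := h_uniq.2.1 d c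
  have hdpos : (0 : ℝ) < d := by positivity
  set ma : ℝ := (∑ i, (a ∘ sa) i) / d with hma
  set mb : ℝ := (∑ i, (b ∘ sb) i) / d with hmb
  set a1 : Fin d → ℝ := fun i => (a ∘ sa) i + (-ma) with ha1
  set b1 : Fin d → ℝ := fun i => (b ∘ sb) i + (-mb) with hb1
  set c1 : Fin d → ℝ := fun i => (c ∘ sc) i + (-ma + -mb) with hc1
  have hc' : P (c ∘ sc) = conv d (P (a ∘ sa)) (P (b ∘ sb)) := by rw [hPsc, hPsa, hPsb, hc]
  have hP1 : P c1 = conv d (P a1) (P b1) := h_trans.1 d _ _ _ (-ma) (-mb) hc'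
  have hsum : ∀ x : Fin d → ℝ, ∑ i, (x i + (-((∑ j, x j) / (d : ℝ)))) = 0 := by
    intro x
    rw [Finset.sum_add_distrib, Finset.sum_const, Finset.card_univ, Fintype.card_fin,
      nsmul_eq_mul]
    field_simp
    ring
  have r := eq_sorted h_def h_p0 h_herm h_ganti h_rflow h_flow h_sums h_vareq
    h_alg h_rcoef h_kpos h_heatalg h_uniq h_trans h_heatscale d hd a1 b1 c1
    (fun i j hij => add_le_add_left (hsa hij) _) (fun i j hij => add_le_add_left (hsb hij) _)
    (fun i j hij => add_le_add_left (hsc hij) _)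
    (fun i j hij => (hai.comp sa.injective) (add_right_cancel hij))
    (fun i j hij => (hbi.comp sb.injective) (add_right_cancel hij))
    (hsum _) (hsum _) hP1 (by
      rw [ha1, hb1, hc1, h_trans.2.1, h_trans.2.1, h_trans.2.1, h_trans.2.2.2.1,
        h_trans.2.2.2.1, h_trans.2.2.2.1]
      exact heq)
  obtain ⟨⟨va, hva0, hva⟩, ⟨vb, hvb0, hvb⟩⟩ := r
  refine ⟨⟨ma, va, hva0, ?_⟩, ⟨mb, vb, hvb0, ?_⟩⟩
  · have := h_herm2 d ma va a1 hd hva
    rw [← this, ← hPsa]
    congr 1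
    funext i
    simp only [ha1]; ring
  · have := h_herm2 d mb vb b1 hd hvb
    rw [← this, ← hPsb]
    congr 1
    funext i
    simp only [hb1]; ring

end Pool.Agent.Q83.FF
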